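import Pool.Agent.ZES.StmtsB
import Pool.Agent.Helper23_Squeeze.Holo

/-! Row DFD of squad ZES. -/

namespace Pool.Agent.ZES.H20

open Pool.Agent.ZES

theorem dfd (_h1 : CauStmt) (_h2 : HolStmt) : DfdStmt := by
  intro V _ _ _ f hf v
  have h := Pool.Agent.Squeeze.differentiableOn_fderiv_apply (U := (Set.univ : Set V)) isOpen_univ
    (hf.differentiableOn) v
  exact differentiableOn_univ.1 h

end Pool.Agent.ZES.H20
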